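import Pool.Agent.H92.OD.Targets

/-!
Module DSC of the board ode_modules (MP_70ba79_ag): the value group of `k(u, y, D y)` is discrete.
-/

set_option autoImplicit false

namespace Pool.Agent.H39.OD

open MvPolynomial Filter Pool.Agent.H92.OD

set_option linter.unusedSectionVars false

section

variable {k : Type} [Field k] [CharZero k] {𝒰 : Ultrafilter ℕ}

theorem sto_mul {x y : Gm 𝒰 (HS k)} {r s : ℚ} (hx : StO x r) (hy : StO y s) :
    StO (x * y) (r + s) := by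
  obtain ⟨f, rfl⟩ := exists_gm x
  obtain ⟨g, rfl⟩ := exists_gm y
  rw [StO_gm] at hx hy
  rw [← gm_mul, StO_gm]
  filter_upwards [hx, hy] with j h1 h2
  exact h1.mul h2

theorem sto_one : StO (1 : Gm 𝒰 (HS k)) 0 := by
  rw [← gm_one, StO_gm]
  refine Eventually.of_forall fun j => ⟨?_, geO_one⟩
  show cf (1 : HS k) 0 ≠ 0
  rw [← sg_zero_one, cf_sg, if_pos rfl]
  exact one_ne_zero

theorem sto_pow {x : Gm 𝒰 (HS k)} {r : ℚ} (hx : StO x r) (n : ℕ) : StO (x ^ n) (n * r) := by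
  induction n with
  | zero => simpa using sto_one (k := k) (𝒰 := 𝒰)
  | succ n ih =>
    have h := sto_mul ih hx
    rw [pow_succ]
    have e : ((n + 1 : ℕ) : ℚ) * r = n * r + r := by push_cast; ring
    rw [e]
    exact h

theorem sto_div {x y : Gm 𝒰 (HS k)} {r s : ℚ} (hx : StO x r) (hy : StO y s) (hxne : x ≠ 0)
    (hyne : y ≠ 0) : StO (x / y) (r - s) := by
  have hz : x / y * y = x := div_mul_cancel₀ x hyne
  have hzne : x / y ≠ 0 := div_ne_zero hxne hyne
  obtain ⟨f, hf⟩ := exists_gm x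
  obtain ⟨g, hg⟩ := exists_gm y
  obtain ⟨w, hw⟩ := exists_gm (x / y)
  rw [hw] at hz hzne ⊢
  rw [hf] at hz hx
  rw [hg] at hz hy
  rw [StO_gm] at hx hy ⊢
  rw [← gm_mul] at hz
  have hz' := gm_eq_iff.1 hz
  have hzne' := gm_ne_zero_iff.1 hzne
  filter_upwards [hx, hy, hz', hzne'] with j h1 h2 h3 h4
  obtain ⟨t, ht⟩ := exists_IsO h4
  have h5 := ht.mul h2
  have h6 : w j * g j = f j := h3
  rw [h6] at h5
  have h7 := h5.unique h1
  have h8 : r - s = t := by linarith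
  rw [h8]
  exact ht

/-- a finite sum of germs with pairwise different standard orders is not zero -/
theorem sum_ne {ι : Type} [DecidableEq ι] (I : Finset ι) (t : ι → Gm 𝒰 (HS k)) (ρ : ι → ℚ)
    (hI : I.Nonempty) (h : ∀ i ∈ I, StO (t i) (ρ i))
    (hinj : ∀ i ∈ I, ∀ j ∈ I, ρ i = ρ j → i = j) : ∑ i ∈ I, t i ≠ 0 := by
  intro h0
  choose f hf using fun i => exists_gm (t i)
  have h1 : (gm (∑ i ∈ I, f i) : Gm 𝒰 (HS k)) = 0 := by
    rw [← gmH_apply, map_sum]
    rw [← h0]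
    refine Finset.sum_congr rfl fun i _ => ?_
    rw [gmH_apply, ← hf i]
  rw [gm_eq_zero_iff] at h1
  have h2 : ∀ᶠ j in (𝒰 : Filter ℕ), ∀ i ∈ I, IsO (f i j) (ρ i) := by
    rw [eventually_all_finset]
    intro i hi
    have := h i hi
    rw [hf i, StO_gm] at this
    exact this
  obtain ⟨i0, hi0, hmin⟩ := Finset.exists_min_image I ρ hI
  obtain ⟨j, hj1, hj2⟩ := (h1.and h2).exists
  rw [Finset.sum_apply] at hj1
  have h3 := congrArg (fun x => cf x (ρ i0)) hj1
  simp only [cf_zero] at h3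
  rw [cf_sum, Finset.sum_eq_single i0] at h3
  · exact (hj2 i0 hi0).1 h3
  · intro i hi hne
    refine (hj2 i hi).2 _ (lt_of_le_of_ne (hmin i hi) fun e => hne (hinj i hi i0 hi0 e.symm))
  · intro h4
    exact absurd hi0 h4

/-! ### values of polynomials in `u` and `θ` -/

/-- order at least zero, constant term `c` -/
def SS (x : HS k) (c : k) : Prop := geO 0 x ∧ cf x 0 = c

theorem SS.add {x y : HS k} {c d : k} (hx : SS x c) (hy : SS y d) : SS (x + y) (c + d) :=
  ⟨geO_add hx.1 hy.1, by rw [cf_add, hx.2, hy.2]⟩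

theorem SS.mul {x y : HS k} {c d : k} (hx : SS x c) (hy : SS y d) : SS (x * y) (c * d) := by
  have h := cf_mul_low hx.1 hy.1
  rw [add_zero] at h
  exact ⟨h.1, by rw [h.2, hx.2, hy.2]⟩

theorem SS_const (c : k) : SS (algebraMap k (HS k) c) c :=
  ⟨geO_sg 0 c, by rw [algebraMap_HS, cf_sg, if_pos rfl]; rfl⟩

theorem SS_uu : SS (uu k) 0 :=
  ⟨geO_mono (geO_sg 1 1) zero_le_one, by unfold uu; rw [cf_sg, if_neg zero_ne_one]⟩

theorem SS.pow {x : HS k} {c : k} (hx : SS x c) (n : ℕ) : SS (x ^ n) (c ^ n) := by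
  induction n with
  | zero =>
    rw [pow_zero, pow_zero]
    have h := SS_const (1 : k)
    rw [map_one] at h
    exact h
  | succ n ih =>
    rw [pow_succ, pow_succ]
    exact ih.mul hx

theorem SS_aeval {x : HS k} {c : k} (hx : SS x c) (a : Polynomial k) :
    SS (Polynomial.aeval x a) (a.eval c) := by
  induction a using Polynomial.induction_on' with
  | add p q hp hq =>
    rw [map_add, Polynomial.eval_add]
    exact hp.add hq
  | monomial n a =>
    rw [Polynomial.aeval_monomial, Polynomial.eval_monomial]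
    exact (SS_const a).mul (hx.pow n)

/-- the value at `(u, θ)` -/
noncomputable def vj (x : HS k) : Polynomial (Polynomial k) →+* HS k :=
  Polynomial.eval₂RingHom (Polynomial.aeval x : Polynomial k →ₐ[k] HS k).toRingHom (uu k)

theorem SS_vj {x : HS k} {c : k} (hx : SS x c) (q : Polynomial (Polynomial k)) :
    SS (vj x q) ((q.coeff 0).eval c) := by
  induction q using Polynomial.induction_on' with
  | add p q hp hq =>
    rw [map_add, Polynomial.coeff_add, Polynomial.eval_add]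
    exact hp.add hq
  | monomial n a =>
    have h1 : vj x (Polynomial.monomial n a) = Polynomial.aeval x a * uu k ^ n :=
      Polynomial.eval₂_monomial _ _
    rw [h1, Polynomial.coeff_monomial]
    have h2 := (SS_aeval hx a).mul (SS_uu.pow n)
    split_ifs with h
    · subst h
      rw [pow_zero, mul_one] at h2
      rw [pow_zero, mul_one] at h2 ⊢
      exact h2
    · rw [zero_pow h, mul_zero] at h2
      rw [Polynomial.eval_zero]
      exact h2

/-- the value at the germs -/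
noncomputable def vg (𝒰 : Ultrafilter ℕ) (θ : ℕ → HS k) :
    Polynomial (Polynomial k) →ₐ[k] Gm 𝒰 (HS k) :=
  { (gmH : (ℕ → HS k) →+* Gm 𝒰 (HS k)).comp (RingHom.pi fun j => vj (θ j)) with
    commutes' := by
      intro c
      show gm (fun j => vj (θ j) (Polynomial.C (Polynomial.C c))) = algebraMap k _ c
      rw [algebraMap_gm]
      refine gm_eq_iff.2 (Eventually.of_forall fun j => ?_)
      show Polynomial.eval₂ _ _ (Polynomial.C (Polynomial.C c)) = _
      rw [Polynomial.eval₂_C]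
      show Polynomial.aeval (θ j) (Polynomial.C c) = _
      rw [Polynomial.aeval_C] }

theorem vg_apply (θ : ℕ → HS k) (p : Polynomial (Polynomial k)) :
    vg 𝒰 θ p = gm fun j => vj (θ j) p := rfl

theorem vg_X (θ : ℕ → HS k) : vg 𝒰 θ Polynomial.X = ug 𝒰 k := by
  rw [vg_apply]
  refine gm_eq_iff.2 (Eventually.of_forall fun j => ?_)
  exact Polynomial.eval₂_X _ _

theorem vg_CX (θ : ℕ → HS k) : vg 𝒰 θ (Polynomial.C Polynomial.X) = gm θ := by
  rw [vg_apply]
  refine gm_eq_iff.2 (Eventually.of_forall fun j => ?_)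
  show Polynomial.eval₂ _ _ (Polynomial.C Polynomial.X) = _
  rw [Polynomial.eval₂_C]
  exact Polynomial.aeval_X _

theorem sto_ug : StO (ug 𝒰 k) 1 := by
  unfold ug
  rw [StO_gm]
  refine Eventually.of_forall fun j => ⟨?_, geO_sg 1 1⟩
  unfold uu
  rw [cf_sg, if_pos rfl]
  exact one_ne_zero

/-- values of polynomials have orders in `ℕ` -/
theorem sto_vg {θ : ℕ → HS k} (h1 : ∀ᶠ j in (𝒰 : Filter ℕ), IsO (θ j) 0)
    (h2 : ∀ f : Polynomial k, f ≠ 0 → ∀ᶠ j in (𝒰 : Filter ℕ), f.eval (cf (θ j) 0) ≠ 0)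
    {p : Polynomial (Polynomial k)} (hp : p ≠ 0) : ∃ n : ℕ, StO (vg 𝒰 θ p) n := by
  obtain ⟨q, hq, hnd⟩ := Polynomial.exists_eq_pow_rootMultiplicity_mul_and_not_dvd p hp 0
  rw [Polynomial.C_0, sub_zero] at hq hnd
  rw [Polynomial.X_dvd_iff] at hnd
  refine ⟨Polynomial.rootMultiplicity 0 p, ?_⟩
  have h3 : StO (vg 𝒰 θ q) 0 := by
    rw [vg_apply, StO_gm]
    filter_upwards [h1, h2 _ hnd] with j e1 e2
    have h4 := SS_vj (⟨e1.2, rfl⟩ : SS (θ j) (cf (θ j) 0)) q
    exact ⟨by rw [h4.2]; exact e2, h4.1⟩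
  have h4 := sto_mul (sto_pow sto_ug (Polynomial.rootMultiplicity 0 p)) h3
  have h5 : vg 𝒰 θ p = ug 𝒰 k ^ Polynomial.rootMultiplicity 0 p * vg 𝒰 θ q := by
    conv_lhs => rw [hq]
    rw [map_mul, map_pow, vg_X]
  rw [h5]
  rw [mul_one, add_zero] at h4
  exact h4

theorem sto_ne {x : Gm 𝒰 (HS k)} {r : ℚ} (h : StO x r) : x ≠ 0 := by
  obtain ⟨f, rfl⟩ := exists_gm x
  rw [StO_gm] at h
  rw [gm_ne_zero_iff]
  filter_upwards [h] with j hj
  exact hj.ne_zero

/-- the field `k(u, θ)` -/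
noncomputable def F0 (𝒰 : Ultrafilter ℕ) (θ : ℕ → HS k) :
    IntermediateField k (Gm 𝒰 (HS k)) := IntermediateField.adjoin k {ug 𝒰 k, gm θ}

theorem vg_mem (θ : ℕ → HS k) (p : Polynomial (Polynomial k)) : vg 𝒰 θ p ∈ F0 𝒰 θ := by
  have h1 : ∀ a : Polynomial k, vg 𝒰 θ (Polynomial.C a) ∈ F0 𝒰 θ := by
    intro a
    induction a using Polynomial.induction_on with
    | C a => 
      have h : vg 𝒰 θ (Polynomial.C (Polynomial.C a)) = algebraMap k _ a := (vg 𝒰 θ).commutes a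
      rw [h]
      exact (F0 𝒰 θ).algebraMap_mem a
    | add p q hp hq =>
      rw [Polynomial.C_add, map_add]
      exact (F0 𝒰 θ).add_mem hp hq
    | monomial n a h =>
      rw [pow_succ, ← mul_assoc, Polynomial.C_mul, map_mul, vg_CX]
      exact (F0 𝒰 θ).mul_mem h (IntermediateField.subset_adjoin _ _ (by simp))
  induction p using Polynomial.induction_on with
  | C a => exact h1 a
  | add p q hp hq =>
    rw [map_add]
    exact (F0 𝒰 θ).add_mem hp hq
  | monomial n a h =>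
    rw [pow_succ, ← mul_assoc, map_mul, vg_X]
    exact (F0 𝒰 θ).mul_mem h (IntermediateField.subset_adjoin _ _ (by simp))

/-- nonzero elements of `k(u, θ)` have integral orders -/
theorem sto_F0 {θ : ℕ → HS k} (h1 : ∀ᶠ j in (𝒰 : Filter ℕ), IsO (θ j) 0)
    (h2 : ∀ f : Polynomial k, f ≠ 0 → ∀ᶠ j in (𝒰 : Filter ℕ), f.eval (cf (θ j) 0) ≠ 0)
    {b : Gm 𝒰 (HS k)} (hb : b ∈ F0 𝒰 θ) (hb0 : b ≠ 0) : ∃ n : ℤ, StO b n := by
  unfold F0 at hb
  rw [IntermediateField.mem_adjoin_iff_div] at hb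
  obtain ⟨x, hx, y, hy, rfl⟩ := hb
  have hle : Algebra.adjoin k {ug 𝒰 k, gm θ} ≤ (vg 𝒰 θ).range := by
    refine Algebra.adjoin_le ?_
    rintro z (rfl | hz)
    · exact ⟨Polynomial.X, vg_X θ⟩
    · rw [Set.mem_singleton_iff] at hz
      rw [hz]
      exact ⟨Polynomial.C Polynomial.X, vg_CX θ⟩
  obtain ⟨p, hp⟩ := hle hx
  obtain ⟨q, hq⟩ := hle hy
  have hp' : vg 𝒰 θ p = x := hp
  have hq' : vg 𝒰 θ q = y := hq
  have hx0 : x ≠ 0 := fun h => hb0 (by rw [h, zero_div])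
  have hy0 : y ≠ 0 := fun h => hb0 (by rw [h, div_zero])
  have hpne : p ≠ 0 := fun h => hx0 (by rw [← hp', h, map_zero])
  have hqne : q ≠ 0 := fun h => hy0 (by rw [← hq', h, map_zero])
  obtain ⟨n, hn⟩ := sto_vg h1 h2 hpne
  obtain ⟨m, hm⟩ := sto_vg h1 h2 hqne
  rw [hp'] at hn
  rw [hq'] at hm
  refine ⟨(n : ℤ) - m, ?_⟩
  have h3 := sto_div hn hm hx0 hy0
  push_cast
  exact h3

/-- three variables -/
noncomputable def ps : MvPolynomial (Fin 3) k →ₐ[k] Polynomial (Polynomial (Polynomial k)) :=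
  aeval (![Polynomial.C Polynomial.X, Polynomial.C (Polynomial.C Polynomial.X), Polynomial.X] :
    Fin 3 → Polynomial (Polynomial (Polynomial k)))

theorem ps_inj : Function.Injective (ps : MvPolynomial (Fin 3) k →ₐ[k] _) := by
  let φ : Polynomial (Polynomial (Polynomial k)) →+* MvPolynomial (Fin 3) k :=
    Polynomial.eval₂RingHom (Polynomial.eval₂RingHom
      (Polynomial.aeval (X 1) : Polynomial k →ₐ[k] MvPolynomial (Fin 3) k).toRingHom (X 0)) (X 2)
  have h : φ.comp (ps : MvPolynomial (Fin 3) k →ₐ[k] _).toRingHom = RingHom.id _ := by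
    refine MvPolynomial.ringHom_ext ?_ ?_
    · intro c
      show φ (ps (C c)) = C c
      have h1 : (ps (C c) : Polynomial (Polynomial (Polynomial k))) =
          Polynomial.C (Polynomial.C (Polynomial.C c)) := by
        unfold ps
        rw [algHom_C]
        rfl
      rw [h1]
      show Polynomial.eval₂ _ _ (Polynomial.C (Polynomial.C (Polynomial.C c))) = _
      rw [Polynomial.eval₂_C]
      show Polynomial.eval₂ _ _ (Polynomial.C (Polynomial.C c)) = _
      rw [Polynomial.eval₂_C]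
      show Polynomial.aeval (X 1) (Polynomial.C c) = _
      rw [Polynomial.aeval_C]
      rfl
    · intro i
      show φ (ps (X i)) = X i
      unfold ps
      rw [aeval_X]
      fin_cases i
      · show Polynomial.eval₂ _ _ (Polynomial.C Polynomial.X) = _
        rw [Polynomial.eval₂_C]
        exact Polynomial.eval₂_X _ _
      · show Polynomial.eval₂ _ _ (Polynomial.C (Polynomial.C Polynomial.X)) = _
        rw [Polynomial.eval₂_C]
        show Polynomial.eval₂ _ _ (Polynomial.C Polynomial.X) = _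
        rw [Polynomial.eval₂_C]
        exact Polynomial.aeval_X _
      · exact Polynomial.eval₂_X _ _
  intro a b hab
  have h1 := congrArg φ hab
  have h2 : ∀ c, φ (ps c) = c := fun c => RingHom.congr_fun h c
  rw [h2, h2] at h1
  exact h1

/-- the values in the field `k(u, θ)` -/
noncomputable def vF (𝒰 : Ultrafilter ℕ) (θ : ℕ → HS k) :
    Polynomial (Polynomial k) →+* F0 𝒰 θ :=
  (vg 𝒰 θ).toRingHom.codRestrict (F0 𝒰 θ).toSubalgebra fun p => vg_mem θ p

theorem vF_coe (θ : ℕ → HS k) (p : Polynomial (Polynomial k)) :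
    ((vF 𝒰 θ p : F0 𝒰 θ) : Gm 𝒰 (HS k)) = vg 𝒰 θ p := rfl

theorem alg_of_rel {θ : ℕ → HS k} (h1 : ∀ᶠ j in (𝒰 : Filter ℕ), IsO (θ j) 0)
    (h2 : ∀ f : Polynomial k, f ≠ 0 → ∀ᶠ j in (𝒰 : Filter ℕ), f.eval (cf (θ j) 0) ≠ 0)
    {z : Gm 𝒰 (HS k)} {R : MvPolynomial (Fin 3) k} (hR : R ≠ 0)
    (h : aeval ![ug 𝒰 k, gm θ, z] R = 0) : IsAlgebraic (F0 𝒰 θ) z := by
  have hinj : Function.Injective (vF 𝒰 θ) := by
    rw [injective_iff_map_eq_zero]
    intro p hp
    by_contra hne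
    obtain ⟨n, hn⟩ := sto_vg h1 h2 hne
    refine sto_ne hn ?_
    rw [← vF_coe, hp]
    exact (F0 𝒰 θ).coe_zero
  have hne : (ps R).map (vF 𝒰 θ) ≠ 0 := by
    rw [Ne, Polynomial.map_eq_zero_iff hinj]
    intro h3
    exact hR (ps_inj (by rw [h3, map_zero]))
  refine ⟨(ps R).map (vF 𝒰 θ), hne, ?_⟩
  have h3 : ∀ R : MvPolynomial (Fin 3) k,
      Polynomial.aeval z ((ps R).map (vF 𝒰 θ)) = aeval ![ug 𝒰 k, gm θ, z] R := by
    intro R
    have h4 : ∀ P : Polynomial (Polynomial (Polynomial k)),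
        Polynomial.aeval z (P.map (vF 𝒰 θ)) = Polynomial.eval₂ (vg 𝒰 θ).toRingHom z P := by
      intro P
      rw [Polynomial.aeval_def, Polynomial.eval₂_map]
      rfl
    rw [h4]
    let χ : MvPolynomial (Fin 3) k →+* Gm 𝒰 (HS k) :=
      (Polynomial.eval₂RingHom (vg 𝒰 θ).toRingHom z).comp
        (ps : MvPolynomial (Fin 3) k →ₐ[k] _).toRingHom
    have h5 : χ = (aeval ![ug 𝒰 k, gm θ, z] : MvPolynomial (Fin 3) k →ₐ[k] _).toRingHom := by
      refine MvPolynomial.ringHom_ext ?_ ?_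
      · intro c
        show Polynomial.eval₂ _ _ (ps (C c)) = aeval ![ug 𝒰 k, gm θ, z] (C c)
        have h1 : (ps (C c) : Polynomial (Polynomial (Polynomial k))) =
            Polynomial.C (Polynomial.C (Polynomial.C c)) := by
          unfold ps
          rw [algHom_C]
          rfl
        rw [h1, Polynomial.eval₂_C, algHom_C]
        exact (vg 𝒰 θ).commutes c
      · intro i
        show Polynomial.eval₂ _ _ (ps (X i)) = aeval ![ug 𝒰 k, gm θ, z] (X i)
        unfold ps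
        rw [aeval_X, aeval_X]
        fin_cases i
        · show Polynomial.eval₂ _ _ (Polynomial.C Polynomial.X) = ug 𝒰 k
          rw [Polynomial.eval₂_C]
          exact vg_X θ
        · show Polynomial.eval₂ _ _ (Polynomial.C (Polynomial.C Polynomial.X)) = gm θ
          rw [Polynomial.eval₂_C]
          exact vg_CX θ
        · exact Polynomial.eval₂_X _ _
    exact RingHom.congr_fun h5 R
  rw [h3]
  exact h

theorem no_rel {θ : ℕ → HS k} (h1 : ∀ᶠ j in (𝒰 : Filter ℕ), IsO (θ j) 0)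
    (h2 : ∀ f : Polynomial k, f ≠ 0 → ∀ᶠ j in (𝒰 : Filter ℕ), f.eval (cf (θ j) 0) ≠ 0)
    {g : Gm 𝒰 (HS k)} {r : ℚ} (hr : StO g r) {B : Polynomial (F0 𝒰 θ)} (hBm : B.Monic)
    (hlt : B.natDegree < r.den) (h5 : Polynomial.aeval g B = 0) : False := by
  classical
  have hsm : ∀ (b : F0 𝒰 θ) (x : Gm 𝒰 (HS k)), b • x = (b : Gm 𝒰 (HS k)) * x :=
    fun b x => Algebra.smul_def b x
  rw [Polynomial.aeval_eq_sum_range] at h5
  simp only [hsm] at h5
  have h9 : ∑ i ∈ (Finset.range (B.natDegree + 1)).filter (fun i => B.coeff i ≠ 0),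
      ((B.coeff i : F0 𝒰 θ) : Gm 𝒰 (HS k)) * g ^ i = 0 := by
    rw [← h5]
    refine Finset.sum_subset (Finset.filter_subset _ _) ?_
    intro i hi hi'
    have h10 : B.coeff i = 0 := by
      by_contra h11
      exact hi' (Finset.mem_filter.2 ⟨hi, h11⟩)
    have h11 : ((B.coeff i : F0 𝒰 θ) : Gm 𝒰 (HS k)) = 0 := by
      rw [h10]
      exact (F0 𝒰 θ).coe_zero
    rw [h11, zero_mul]
  have h10 : ∀ i, ∃ n : ℤ, B.coeff i ≠ 0 → StO ((B.coeff i : F0 𝒰 θ) : Gm 𝒰 (HS k)) n := by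
    intro i
    by_cases hi : B.coeff i = 0
    · exact ⟨0, fun h => absurd hi h⟩
    · have h11 : ((B.coeff i : F0 𝒰 θ) : Gm 𝒰 (HS k)) ≠ 0 := by
        intro h
        apply hi
        apply Subtype.ext
        rw [h]
        exact (F0 𝒰 θ).coe_zero.symm
      obtain ⟨n, hn⟩ := sto_F0 h1 h2 (B.coeff i).2 h11
      exact ⟨n, fun _ => hn⟩
  choose n hn using h10
  refine sum_ne ((Finset.range (B.natDegree + 1)).filter (fun i => B.coeff i ≠ 0))
    (fun i => ((B.coeff i : F0 𝒰 θ) : Gm 𝒰 (HS k)) * g ^ i) (fun i => n i + i * r) ?_ ?_ ?_ h9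
  · refine ⟨B.natDegree, Finset.mem_filter.2 ⟨Finset.self_mem_range_succ _, ?_⟩⟩
    rw [hBm.coeff_natDegree]
    exact one_ne_zero
  · intro i hi
    exact sto_mul (hn i (Finset.mem_filter.1 hi).2) (sto_pow hr i)
  · intro i hi j hj hij
    have hi1 := Finset.mem_range.1 (Finset.mem_filter.1 hi).1
    have hj1 := Finset.mem_range.1 (Finset.mem_filter.1 hj).1
    have h11 : ((i : ℤ) - j) * r.num = (n j - n i) * r.den := by
      have h12 : ((i : ℚ) - j) * r = n j - n i := by linarith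
      have h13 : r * r.den = r.num := Rat.mul_den_eq_num r
      have h14 : ((i : ℚ) - j) * r.num = (n j - n i) * r.den := by
        rw [← h13, ← h12]
        ring
      exact_mod_cast h14
    have h12 : (r.den : ℤ) ∣ ((i : ℤ) - j) * r.num := ⟨n j - n i, by rw [h11, mul_comm]⟩
    have h13 : IsCoprime (r.den : ℤ) r.num := by
      rw [Int.isCoprime_iff_nat_coprime]
      simpa using r.reduced.symm
    have h14 := h13.dvd_of_dvd_mul_right h12
    have h15 : (i : ℤ) - j = 0 := Int.eq_zero_of_abs_lt_dvd h14 (by rw [abs_lt]; omega)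
    omega

end

section

variable {k : Type} [Field k] [CharZero k] {𝒰 : Ultrafilter ℕ}

/-- the field `F0(y, D y)` -/
noncomputable def E1 (𝒰 : Ultrafilter ℕ) (θ y : ℕ → HS k) :
    IntermediateField (F0 𝒰 θ) (Gm 𝒰 (HS k)) :=
  IntermediateField.adjoin (F0 𝒰 θ) {gm y, DG (gm y : Gm 𝒰 (HS k))}

theorem mem_u {y : Gm 𝒰 (HS k)} : ug 𝒰 k ∈ EE DG (ug 𝒰 k) y :=
  IntermediateField.subset_adjoin k {ug 𝒰 k, y, DG y} (Or.inl rfl)

theorem mem_y {y : Gm 𝒰 (HS k)} : y ∈ EE DG (ug 𝒰 k) y :=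
  IntermediateField.subset_adjoin k {ug 𝒰 k, y, DG y} (Or.inr (Or.inl rfl))

theorem mem_Dy {y : Gm 𝒰 (HS k)} : DG y ∈ EE DG (ug 𝒰 k) y :=
  IntermediateField.subset_adjoin k {ug 𝒰 k, y, DG y} (Or.inr (Or.inr rfl))

theorem le_E1 (θ y : ℕ → HS k) : ∀ g ∈ EE DG (ug 𝒰 k) (gm y : Gm 𝒰 (HS k)), g ∈ E1 𝒰 θ y := by
  have h4 : EE DG (ug 𝒰 k) (gm y : Gm 𝒰 (HS k)) ≤ (E1 𝒰 θ y).restrictScalars k := by
    unfold EE
    rw [IntermediateField.adjoin_le_iff]
    rintro x (hx | hx | hx)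
    · rw [hx]
      have h5 : ug 𝒰 k ∈ F0 𝒰 θ :=
        IntermediateField.subset_adjoin k {ug 𝒰 k, gm θ} (Or.inl rfl)
      exact (E1 𝒰 θ y).algebraMap_mem ⟨ug 𝒰 k, h5⟩
    · rw [hx]
      exact IntermediateField.subset_adjoin (F0 𝒰 θ) {gm y, DG (gm y : Gm 𝒰 (HS k))} (Or.inl rfl)
    · rw [Set.mem_singleton_iff] at hx
      rw [hx]
      exact IntermediateField.subset_adjoin (F0 𝒰 θ) {gm y, DG (gm y : Gm 𝒰 (HS k))} (Or.inr rfl)
  exact fun g hg => h4 hg

end

theorem pf_DSC (h1 : T_TRD) (h2 : T_THE) (_h3 : T_STD) : T_DSC := by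
  intro k _ _ _ 𝒰 y s Q hS
  obtain ⟨θ, hθE, hθ1, hθ2⟩ := h2 k 𝒰 y s Q hS
  have hQ : ∃ Q : MvPolynomial (Fin 3) k, Q ≠ 0 ∧ evD DG (ug 𝒰 k) Q (gm y) = 0 := by
    refine ⟨Q, hS.nz, ?_⟩
    rw [evD_gm, gm_eq_zero_iff]
    exact hS.sol
  have halg : ∀ z ∈ EE DG (ug 𝒰 k) (gm y), IsAlgebraic (F0 𝒰 θ) z := by
    intro z hz
    obtain ⟨R, hR, hR0⟩ := h1 k (Gm 𝒰 (HS k)) DG (ug 𝒰 k) (gm y) hQ _ mem_u _ hθE z hz
    exact alg_of_rel hθ1 hθ2 hR hR0
  have hfd : FiniteDimensional (F0 𝒰 θ) (E1 𝒰 θ y) := by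
    refine IntermediateField.finiteDimensional_adjoin ?_
    intro x hx
    refine (halg x ?_).isIntegral
    rcases hx with hx | hx
    · rw [hx]
      exact mem_y
    · rw [Set.mem_singleton_iff] at hx
      rw [hx]
      exact mem_Dy
  have hle := le_E1 (k := k) (𝒰 := 𝒰) θ y
  obtain ⟨E', hE'⟩ : ∃ E', E' = E1 𝒰 θ y := ⟨_, rfl⟩
  rw [← hE'] at hfd hle
  refine ⟨(Module.finrank (F0 𝒰 θ) E').factorial, Nat.factorial_pos _, ?_⟩
  intro g hg r hr
  obtain ⟨g', hg'⟩ : ∃ g' : E', (g' : Gm 𝒰 (HS k)) = g := ⟨⟨g, hle g hg⟩, rfl⟩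
  have hden : r.den ≤ Module.finrank (F0 𝒰 θ) E' := by
    refine le_trans ?_ (minpoly.natDegree_le (A := F0 𝒰 θ) g')
    by_contra hlt
    push Not at hlt
    obtain ⟨B, hB⟩ : ∃ B, B = minpoly (F0 𝒰 θ) g' := ⟨_, rfl⟩
    rw [← hB] at hlt
    have hint : IsIntegral (F0 𝒰 θ) g' := IsIntegral.of_finite _ _
    have hBm : B.Monic := by rw [hB]; exact minpoly.monic hint
    have h6 : Polynomial.aeval g' B = 0 := by rw [hB]; exact minpoly.aeval (F0 𝒰 θ) g'
    have h5 : Polynomial.aeval g B = 0 := by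
      rw [← hg']
      have h8 := Polynomial.aeval_algebraMap_apply (Gm 𝒰 (HS k)) g' B
      rw [h6, map_zero] at h8
      exact h8
    exact no_rel hθ1 hθ2 hr hBm hlt h5
  obtain ⟨c, hc⟩ := Nat.dvd_factorial r.den_pos hden
  refine ⟨r.num * c, ?_⟩
  rw [hc]
  push_cast
  rw [← mul_assoc, Rat.mul_den_eq_num]

end Pool.Agent.H39.OD
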