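import Mathlib
import Pool.Agent.H57.CP.Geo
import Pool.Agent.H39.TO.Defs

/-!
# Two-orbit polyhedra with odd faces in hyperbolic 3-space (MP_397744_co): definitions and the theorem

`H3`, `ch`, `IsIso`, `IsPolyhedron`, `IsFaithful`, `IsSymmetry`, `IsFlag`, `SameOrbit`, `im1`, `im2` are in
`Pool.Agent.H57.CP.Defs`, `IsTwoOrbit` is in `Pool.Agent.H39.TO.Defs`, `Geo` (a set of points, a set of pairs, a set of
sets of pairs), `Kof` (vertices, edges, faces of a realization), `refl`, `o` are in `Pool.Agent.H57.CP.Geo`.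
-/

namespace Pool.Agent.H39.OD

open Pool.Agent.H57.CP Pool.Agent.H39.TO

/-- the image of a geometric polyhedron under a bijection of `H3` -/
def mapG (g : Equiv.Perm H3) (K : Geo) : Geo :=
  ⟨g '' K.V, (Set.image g) '' K.E, (Set.image (Set.image g)) '' K.F⟩

/-- congruent: equal up to an isometry -/
def Cong (K K' : Geo) : Prop := ∃ g : Equiv.Perm H3, IsIso g ∧ K' = mapG g K

/-- the vertices, edges and faces of a two-orbit polyhedron all of whose faces have `p` vertices -/
def OddPoly (p : ℕ) (K : Geo) : Prop :=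
  ∃ (P : Type) (_ : PartialOrder P) (_ : BoundedOrder P) (rk : P → ℤ) (β : P → H3),
    IsPolyhedron P rk ∧ IsFaithful rk β ∧ IsTwoOrbit rk β ∧
    (∀ f, rk f = 2 → {v | rk v = 0 ∧ v < f}.encard = p) ∧ K = Kof rk β

open Classical in
/-- the reflection of `H3` in the plane orthogonal to the vector `n` (with `mk n n = -1`) -/
noncomputable def rf (n : V4) : Equiv.Perm H3 :=
  if h : ∃ g : Equiv.Perm H3, ∀ x : H3, (g x).1 = refl n x.1 then h.choose else 1

/-- the base face for two involutions: the images of the edge under the group generated by them -/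
def fcw (a b : Equiv.Perm H3) (e : Set H3) : Set (Set H3) := {x | ∃ g ∈ Subgroup.closure {a, b}, x = g '' e}

/-- the Wythoff polyhedron: base vertex `v`, base edge `{v, r v}`, two base faces, images under the group generated
by `r`, `a`, `b` -/
def Wy (v : H3) (r a b : Equiv.Perm H3) : Geo :=
  ⟨{x | ∃ g ∈ Subgroup.closure {r, a, b}, x = g v}, {e | ∃ g ∈ Subgroup.closure {r, a, b}, e = g '' {v, r v}},
    {f | ∃ g ∈ Subgroup.closure {r, a, b},
      f = (Set.image g) '' fcw r a {v, r v} ∨ f = (Set.image g) '' fcw r b {v, r v}}⟩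

/-- the third coordinate of the first normal, squared -/
noncomputable def z2 (A B D h : ℝ) : ℝ := 1 - A ^ 2 - (B + A * D) ^ 2 / (1 - D ^ 2) + h ^ 2

/-- normals with products `A`, `B`, `D`; the base point `o` is on the last two planes and
`mk o (m0 A B D h) = -h` -/
noncomputable def m0 (A B D h : ℝ) : V4 := ![-A, -((B + A * D) / Real.sqrt (1 - D ^ 2)), Real.sqrt (z2 A B D h), -h]
noncomputable def m1 : V4 := ![1, 0, 0, 0]
noncomputable def m2 (D : ℝ) : V4 := ![-D, Real.sqrt (1 - D ^ 2), 0, 0]

/-- the products of the first two normals, of the first and the third, and of the last two, for the five families -/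
noncomputable def cA (p : ℕ) : ℝ := Real.cos (Real.pi / p)
noncomputable def cB (p : ℕ) (i : Fin 5) : ℝ := Real.cos (![2, 2, 3, 4, 2] i * Real.pi / p)
noncomputable def cD (p : ℕ) (i : Fin 5) : ℝ := ![0, cA p, 1 / 2, cA p, 1 / 2] i

/-- the parameters: family `i` and the number `h`, where `1 + 2 h ^ 2` is the hyperbolic cosine of the edge length -/
structure Valid (p : ℕ) (i : Fin 5) (h : ℝ) : Prop where
  p5 : 5 ≤ p
  i2 : i = 2 → ¬ 3 ∣ p
  i3 : i = 3 → 7 ≤ p
  i4 : i = 4 → p = 7
  h0 : 0 < h
  hz : 0 ≤ z2 (cA p) (cB p i) (cD p i) h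

/-- the polyhedra of the five families -/
noncomputable def Mod (p : ℕ) (i : Fin 5) (h : ℝ) : Geo :=
  Wy o (rf (m0 (cA p) (cB p i) (cD p i) h)) (rf m1) (rf (m2 (cD p i)))

/-- THE THEOREM: for odd `p`, the two-orbit polyhedra all of whose faces have `p` vertices are, up to isometry, exactly
the polyhedra of the five families, and different parameters give polyhedra which are not congruent -/
def MainOdd : Prop := ∀ p : ℕ, Odd p → (∀ K : Geo, OddPoly p K ↔ ∃ i h, Valid p i h ∧ Cong (Mod p i h) K) ∧
  ∀ i h i' h', Valid p i h → Valid p i' h' → Cong (Mod p i h) (Mod p i' h') → i = i' ∧ h = h'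

end Pool.Agent.H39.OD
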