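import Pool.Agent.H39.OD.Targets

/-!
# Two-orbit polyhedra with odd faces in hyperbolic 3-space: assembly
-/

namespace Pool.Agent.H39.OD

open Pool.Agent.H57.CP Pool.Agent.H39.TO

theorem G3_swap (r a b : Equiv.Perm H3) : G3 r a b = G3 r b a := by
  unfold G3
  congr 1
  ext x
  simp only [Set.mem_insert_iff, Set.mem_singleton_iff]
  tauto

theorem Wy_swap (v : H3) (r a b : Equiv.Perm H3) : Wy v r a b = Wy v r b a := by
  have h := G3_swap r a b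
  unfold G3 at h
  unfold Wy
  rw [h]
  congr 1
  ext f
  constructor
  · rintro ⟨g, hg, h | h⟩
    · exact ⟨g, hg, Or.inr h⟩
    · exact ⟨g, hg, Or.inl h⟩
  · rintro ⟨g, hg, h | h⟩
    · exact ⟨g, hg, Or.inr h⟩
    · exact ⟨g, hg, Or.inl h⟩

theorem ef_all (h0 : T_EF0) (h1 : T_EF1) (h2 : T_EF2) (h3 : T_EF3) (h4 : T_EF4) : ∀ i, T_EF i := by
  intro i
  fin_cases i
  exacts [h0, h1, h2, h3, h4]

/-- the models are two-orbit polyhedra -/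
theorem mod_geo (hEF : ∀ i, T_EF i) (hMDC : T_MDC) (hTRG : T_TRG) (hCHF : T_CHF) (hORD : T_ORD2) (hBEB : T_BEB)
    (hBEE : T_BEE) (hBEF : T_BEF) (p : ℕ) (i : Fin 5) (h : ℝ) (hp : Odd p) (hv : Valid p i h) :
    IsGeo (Mod p i h) ∧ Two (Mod p i h) ∧ FS (Mod p i h) = {(p : ℕ∞)} ∧ DG (Mod p i h) = {2 * (dg p i : ℕ∞)} ∧
    BStr o (rf (m0 (cA p) (cB p i) (cD p i) h)) (rf m1) (rf (m2 (cD p i))) ∧
    ch o (rf (m0 (cA p) (cB p i) (cD p i) h) o) = 1 + 2 * h ^ 2 ∧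
    ch (rf (m0 (cA p) (cB p i) (cD p i) h) o) (rf m1 (rf (m0 (cA p) (cB p i) (cD p i) h) o)) =
      1 + 8 * h ^ 2 * (cA p) ^ 2 ∧
    ch (rf (m0 (cA p) (cB p i) (cD p i) h) o) (rf (m2 (cD p i)) (rf (m0 (cA p) (cB p i) (cD p i) h) o)) =
      1 + 8 * h ^ 2 * (cB p i) ^ 2 := by
  have vp : VP p i := ⟨hv.p5, hv.i2, hv.i3, hv.i4⟩
  obtain ⟨t1, t2, t3⟩ := hTRG p i hp vp
  obtain ⟨hc, hc'⟩ := hMDC (cA p) (cB p i) (cD p i) h t2 hv.h0 hv.hz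
  have hB := hEF i p hp vp _ _ _ _ hc
  obtain ⟨o1, o2, o3⟩ := hORD p hp i vp _ _ _ _ hc
  obtain ⟨e1, e2⟩ := hCHF o _ _ hc.u0 hc.u1 hc.v1
  obtain ⟨_, e4⟩ := hCHF o _ _ hc.u0 hc.u2 hc.v2
  rw [hc', neg_sq] at e1 e2 e4
  rw [hc.a] at e2
  rw [hc.b] at e4
  obtain ⟨b1, b2⟩ := hBEE _ _ _ _ hB
  refine ⟨hBEB _ _ _ _ hB, hBEF _ _ _ _ hB (Or.inr ?_), ?_, ?_, hB, e1, e2, e4⟩
  · rw [e2, e4]
    intro h5
    have h6 : h ^ 2 * (cA p) ^ 2 = h ^ 2 * (cB p i) ^ 2 := by linarith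
    have h7 : h ^ 2 ≠ 0 := (pow_pos hv.h0 2).ne'
    exact t1 (mul_left_cancel₀ h7 h6)
  · have : FS (Mod p i h) = {oE (rf (m0 (cA p) (cB p i) (cD p i) h) * rf m1),
      oE (rf (m0 (cA p) (cB p i) (cD p i) h) * rf (m2 (cD p i)))} := b1
    rw [this, o1, o2, Set.pair_eq_singleton]
  · have : DG (Mod p i h) = {2 * oE (rf m1 * rf (m2 (cD p i)))} := b2
    rw [this, o3]

theorem uni (hEF : ∀ i, T_EF i) (hMDC : T_MDC) (hTRG : T_TRG) (hCHF : T_CHF) (hORD : T_ORD2) (hBEB : T_BEB)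
    (hBEE : T_BEE) (hBEF : T_BEF) (hELS : T_ELS) (hDLS : T_DLS) (hCGI : T_CGI) : T_UNI := by
  intro p i h i' h' hp hv hv' hC
  obtain ⟨_, _, _, d1, b1, l1, x1, y1⟩ := mod_geo hEF hMDC hTRG hCHF hORD hBEB hBEE hBEF p i h hp hv
  obtain ⟨_, _, _, d2, b2, l2, x2, y2⟩ := mod_geo hEF hMDC hTRG hCHF hORD hBEB hBEE hBEF p i' h' hp hv'
  obtain ⟨c1, c2, c3⟩ := hCGI _ _ hC
  have vp : VP p i := ⟨hv.p5, hv.i2, hv.i3, hv.i4⟩
  have vp' : VP p i' := ⟨hv'.p5, hv'.i2, hv'.i3, hv'.i4⟩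
  obtain ⟨t1, t2, t3⟩ := hTRG p i hp vp
  obtain ⟨t1', t2', t3'⟩ := hTRG p i' hp vp'
  have E1 : ELs (Mod p i h) = {1 + 2 * h ^ 2} := by
    have := hELS _ _ _ _ b1
    rw [l1] at this; exact this
  have E2 : ELs (Mod p i' h') = {1 + 2 * h' ^ 2} := by
    have := hELS _ _ _ _ b2
    rw [l2] at this; exact this
  have hh : h = h' := by
    rw [E1, E2, Set.singleton_eq_singleton_iff] at c1
    have h1 : h ^ 2 = h' ^ 2 := by linarith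
    have h2 : (h - h') * (h + h') = 0 := by ring_nf; linarith
    have h3 : 0 < h + h' := add_pos hv.h0 hv'.h0
    rcases mul_eq_zero.1 h2 with h4 | h4
    · linarith
    · exact absurd h4 h3.ne'
  subst hh
  refine ⟨?_, rfl⟩
  have D1 : DLs (Mod p i h) = {1 + 8 * h ^ 2 * (cA p) ^ 2, 1 + 8 * h ^ 2 * (cB p i) ^ 2} := by
    have := hDLS _ _ _ _ b1
    rw [x1, y1] at this; exact this
  have D2 : DLs (Mod p i' h) = {1 + 8 * h ^ 2 * (cA p) ^ 2, 1 + 8 * h ^ 2 * (cB p i') ^ 2} := by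
    have := hDLS _ _ _ _ b2
    rw [x2, y2] at this; exact this
  have h7 : h ^ 2 ≠ 0 := (pow_pos hv.h0 2).ne'
  have hB : (cB p i) ^ 2 = (cB p i') ^ 2 := by
    have h8 : 1 + 8 * h ^ 2 * (cB p i) ^ 2 ∈ DLs (Mod p i' h) := by
      rw [← c2, D1]; right; rfl
    rw [D2] at h8
    rcases h8 with h8 | h8
    · exfalso
      apply t1
      apply mul_left_cancel₀ h7
      linarith
    · have h9 : 1 + 8 * h ^ 2 * (cB p i) ^ 2 = 1 + 8 * h ^ 2 * (cB p i') ^ 2 := h8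
      apply mul_left_cancel₀ h7
      linarith
  apply t3 i' vp' hB
  rw [d1, d2, Set.singleton_eq_singleton_iff] at c3
  have h10 : ((2 * dg p i : ℕ) : ℕ∞) = ((2 * dg p i' : ℕ) : ℕ∞) := by
    push_cast; exact c3
  have h11 : 2 * dg p i = 2 * dg p i' := by exact_mod_cast h10
  omega

theorem main_asm (hLA : T_LA) (hLBT : T_LBT) (hLCT : T_LCT) (hLD : T_LD) (hLET : T_LET) (hKOF : T_KOF)
    (hCNG : T_CNG) (hEF : ∀ i, T_EF i) (hMDC : T_MDC) (hTRG : T_TRG) (hCHF : T_CHF) (hORD : T_ORD2) (hBEB : T_BEB)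
    (hBEE : T_BEE) (hBEF : T_BEF) (hUNI : T_UNI) (hNO1 : T_NO1) (hRFD : T_RFD2) (hKWY : T_KWY) (hCLA : T_CLA2)
    (hRFX : T_RFX) (hWIT : T_WIT) (hCJW : T_CJW) : MainOdd := by
  intro p hp
  refine ⟨fun K => ⟨?_, ?_⟩, fun i h i' h' hv hv' hC => hUNI p i h i' h' hp hv hv' hC⟩
  · rintro ⟨P, i1, i2, rk, β, h1, h2, h3, h4, rfl⟩
    have g1 := hLA P rk β h1 h2
    have g2 := hLBT P rk β h1 h2 h3
    obtain ⟨g3, _⟩ := hLCT P rk β h1 h2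
    have g4 : FS (Kof rk β) = {(p : ℕ∞)} := by
      rw [g3]
      have hne : ∃ f, rk f = 2 := by
        obtain ⟨x, hx⟩ := g1.ne
        obtain ⟨e, he, -⟩ := g1.ve x hx
        have h5 := g1.ef e he
        have h6 : {f | f ∈ (Kof rk β).F ∧ e ∈ f}.Nonempty := by
          apply Set.nonempty_of_ncard_ne_zero
          rw [h5]; norm_num
        obtain ⟨f, ⟨f0, hf0, -⟩, -⟩ := h6
        exact ⟨f0, hf0⟩
      ext n
      constructor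
      · rintro ⟨f, hf, rfl⟩
        exact h4 f hf
      · intro hn
        obtain ⟨f, hf⟩ := hne
        exact ⟨f, hf, by rw [h4 f hf]; exact hn.symm⟩
    obtain ⟨p3, v, v1, f, f', a, b, c, q, D, q3⟩ := hNO1 _ p g1 g2 g4 hp
    obtain ⟨n0, n1, n2, R, ra, rb, rc⟩ := hRFD _ v v1 f f' a b c p q g1 D hp p3 q3
    have hK := hKWY _ v v1 f f' a b c p q n0 n1 n2 g1 D R.u0 R.u1 R.u2 ra rb rc
    obtain ⟨i, k0, k1, k2, vp, e0, e12, hc⟩ := hCLA p (q / 2) v n0 n1 n2 hp p3 R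
    have r0 : rf k0 = rf n0 := by
      rcases e0 with rfl | rfl
      · rfl
      · exact (hRFX n0 R.u0).2.2.2.2.1
    have rr : ∀ n k : V4, mk n n = -1 → (k = n ∨ k = -n) → rf k = rf n := by
      rintro n k hn (rfl | rfl)
      · rfl
      · exact (hRFX n hn).2.2.2.2.1
    have hK' : Kof rk β = Wy v (rf k0) (rf k1) (rf k2) := by
      rcases e12 with ⟨e1, e2⟩ | ⟨e1, e2⟩
      · rw [hK, r0, rr n1 k1 R.u1 e1, rr n2 k2 R.u2 e2]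
      · rw [hK, r0, rr n2 k1 R.u2 e1, rr n1 k2 R.u1 e2, Wy_swap]
    obtain ⟨t1, t2, t3⟩ := hTRG p i hp vp
    obtain ⟨w1, g, G, w2, w3, w4, w5, w6, w7, w8⟩ := hWIT _ _ _ v k0 k1 k2 t2 hc
    have hh : 0 < -(mk v.1 k0) := neg_pos.mpr hc.v0
    refine ⟨i, -(mk v.1 k0), ⟨vp.p5, vp.i2, vp.i3, vp.i4, hh, w1⟩, g, w2, ?_⟩
    obtain ⟨m, -⟩ := hMDC (cA p) (cB p i) (cD p i) (-(mk v.1 k0)) t2 hh w1
    have := hCJW g G o _ _ _ w2 w3 w4 m.u0 m.u1 m.u2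
    rw [w5, w6, w7, w8] at this
    rw [hK']
    exact this.symm
  · rintro ⟨i, h, hv, g, hg, rfl⟩
    obtain ⟨k1, k2, k3, _⟩ := mod_geo hEF hMDC hTRG hCHF hORD hBEB hBEE hBEF p i h hp hv
    obtain ⟨l1, l2⟩ := hLD (Mod p i h) k1
    obtain ⟨l3, l4, _⟩ := hLET (Mod p i h) k1
    obtain ⟨c1, c2, c3⟩ := hCNG _ _ _ g hg l2 (l3 k2)
    rw [hKOF _ k1] at c3
    refine ⟨Cell (Mod p i h), inferInstance, inferInstance, Cell.rk, _, l1, c1, c2, ?_, c3.symm⟩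
    intro f hf
    have : {v | Cell.rk (K := Mod p i h) v = 0 ∧ v < f}.encard ∈ faceSizes (Cell.rk (K := Mod p i h)) := ⟨f, hf, rfl⟩
    rw [l4, k3] at this
    exact this

end Pool.Agent.H39.OD
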