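import Pool.Agent.H39.OD.Defs
import Pool.Agent.H39.TO.Targets

/-!
# Two-orbit polyhedra with odd faces in hyperbolic 3-space: targets

One `Prop` `T_XX` per module. Notations of `Pool.Agent.H39.TO.Geo` and `Pool.Agent.H57.CP.Geo`. Note that
`Wy v r a b = KB v r a b` and `fcw = fc` hold by `rfl`.
-/

namespace Pool.Agent.H39.OD

open Pool.Agent.H57.CP Pool.Agent.H39.TO

/-- three unit normals with given products, `v` is on the last two planes and on the negative side of the first -/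
structure Cfg (A B D : ℝ) (v : H3) (n0 n1 n2 : V4) : Prop where
  u0 : mk n0 n0 = -1
  u1 : mk n1 n1 = -1
  u2 : mk n2 n2 = -1
  a : mk n0 n1 = A
  b : mk n0 n2 = B
  d : mk n1 n2 = D
  v0 : mk v.1 n0 < 0
  v1 : mk v.1 n1 = 0
  v2 : mk v.1 n2 = 0

/-- the values of `p` for the family `i` -/
structure VP (p : ℕ) (i : Fin 5) : Prop where
  p5 : 5 ≤ p
  i2 : i = 2 → ¬ 3 ∣ p
  i3 : i = 3 → 7 ≤ p
  i4 : i = 4 → p = 7

/-- half of the degree -/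
def dg (p : ℕ) (i : Fin 5) : ℕ := ![2, p, 3, p, 3] i

/-! ## Tools -/

/-- the map `rf` -/
def T_RFX : Prop := ∀ n : V4, mk n n = -1 → (∀ x : H3, (rf n x).1 = refl n x.1) ∧ IsIso (rf n) ∧ rf n * rf n = 1 ∧
  rf n ≠ 1 ∧ rf (-n) = rf n ∧ ∀ g : Equiv.Perm H3, (∀ x : H3, (g x).1 = refl n x.1) → g = rf n

/-- the realization of the cells -/
def T_KOF : Prop := ∀ K : Geo, IsGeo K → Kof (Cell.rk (K := K)) (Cell.real o) = K

/-- composition of a realization with an isometry -/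
def T_CNG : Prop := ∀ (P : Type) [PartialOrder P] [BoundedOrder P] (rk : P → ℤ) (β : P → H3) (g : Equiv.Perm H3),
  IsIso g → IsFaithful rk β → IsTwoOrbit rk β →
  IsFaithful rk (fun x => g (β x)) ∧ IsTwoOrbit rk (fun x => g (β x)) ∧ Kof rk (fun x => g (β x)) = mapG g (Kof rk β)

/-! ## Existence -/

/-- `T_BWS` without the assumption that the three reflections generate the group -/
def T_BW2 : Prop := ∀ M al σ ψ, Nrm M al → Sg M al σ → Ps M σ ψ → Function.Injective ψ →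
  ∀ (i j k l : Fin 3) (w : M.Group) (v : H3), i ≠ j → i ≠ k → j ≠ k → M i j ≠ 0 →
  mk v.1 (al i) = 0 → mk v.1 (al j) = 0 → mk v.1 (al k) < 0 →
  ∀ r : M.Group, r = w * ss M l * w⁻¹ →
  mk v.1 (σ w (al l)) ≠ 0 → LinearIndependent ℝ ![σ w (al l), al i, al j] →
  (∀ g ∈ Subgroup.closure {ss M i, ss M j}, σ g (σ w (al l)) = σ w (al l) → g = 1) →
  BStr v (ψ r) (ψ (ss M i)) (ψ (ss M j))

/-- a root and the first two simple roots of a Coxeter group -/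
def T_ECX : Prop := ∀ M al, Nrm M al → ∀ (v : H3) (n0 : V4) (L L' : List (Fin 3)) (l : Fin 3), M 0 1 ≠ 0 →
  mk v.1 (al 0) = 0 → mk v.1 (al 1) = 0 → mk v.1 (al 2) < 0 → mk v.1 n0 ≠ 0 →
  n0 = (L.map (fun i => (refl (al i) : Module.End ℝ V4))).prod (al l) → (∀ i ∈ L', i = 0 ∨ i = 1) →
  0 < mk ((L'.map (fun i => (refl (al i) : Module.End ℝ V4))).prod n0) (al 0) →
  0 < mk ((L'.map (fun i => (refl (al i) : Module.End ℝ V4))).prod n0) (al 1) →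
  BStr v (rf n0) (rf (al 0)) (rf (al 1))

/-- the five families -/
def T_EF (i : Fin 5) : Prop := ∀ p : ℕ, Odd p → VP p i → ∀ v n0 n1 n2, Cfg (cA p) (cB p i) (cD p i) v n0 n1 n2 →
  BStr v (rf n0) (rf n1) (rf n2)
def T_EF0 : Prop := T_EF 0
def T_EF1 : Prop := T_EF 1
def T_EF2 : Prop := T_EF 2
def T_EF3 : Prop := T_EF 3
def T_EF4 : Prop := T_EF 4

/-- orders -/
def T_ORD2 : Prop := ∀ p : ℕ, Odd p → ∀ i, VP p i → ∀ v n0 n1 n2, Cfg (cA p) (cB p i) (cD p i) v n0 n1 n2 →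
  oE (rf n0 * rf n1) = (p : ℕ∞) ∧ oE (rf n0 * rf n2) = (p : ℕ∞) ∧ oE (rf n1 * rf n2) = (dg p i : ℕ∞)

/-- distances -/
def T_CHF : Prop := ∀ (v : H3) (n0 n1 : V4), mk n0 n0 = -1 → mk n1 n1 = -1 → mk v.1 n1 = 0 →
  ch v (rf n0 v) = 1 + 2 * (mk v.1 n0) ^ 2 ∧
  ch (rf n0 v) (rf n1 (rf n0 v)) = 1 + 8 * (mk v.1 n0) ^ 2 * (mk n0 n1) ^ 2

/-- the normals of the model -/
def T_MDC : Prop := ∀ A B D h : ℝ, D ^ 2 < 1 → 0 < h → 0 ≤ z2 A B D h →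
  Cfg A B D o (m0 A B D h) m1 (m2 D) ∧ mk o.1 (m0 A B D h) = -h

/-! ## The model and the isometries -/

/-- a configuration is congruent to the model -/
def T_WIT : Prop := ∀ (A B D : ℝ) v n0 n1 n2, D ^ 2 < 1 → Cfg A B D v n0 n1 n2 → 0 ≤ z2 A B D (-(mk v.1 n0)) ∧
  ∃ (g : Equiv.Perm H3) (G : V4 →ₗ[ℝ] V4), IsIso g ∧ Ext G g ∧ Lor G ∧ g o = v ∧
    G (m0 A B D (-(mk v.1 n0))) = n0 ∧ G m1 = n1 ∧ G (m2 D) = n2

/-- image of a Wythoff polyhedron -/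
def T_CJW : Prop := ∀ (g : Equiv.Perm H3) (G : V4 →ₗ[ℝ] V4) (v : H3) (n0 n1 n2 : V4), IsIso g → Ext G g → Lor G →
  mk n0 n0 = -1 → mk n1 n1 = -1 → mk n2 n2 = -1 →
  mapG g (Wy v (rf n0) (rf n1) (rf n2)) = Wy (g v) (rf (G n0)) (rf (G n1)) (rf (G n2))

/-! ## Necessity -/

/-- `T_RFD` with the reflections -/
def T_RFD2 : Prop := ∀ (K : Geo) (v v1 : H3) (f f' : Set (Set H3)) (a b c : Equiv.Perm H3) (p q : ℕ), IsGeo K →
  D01 K v v1 f f' a b c p q → Odd p → 3 ≤ p → 3 ≤ q → ∃ n0 n1 n2, RefD p (q / 2) v n0 n1 n2 ∧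
    (∀ x ∈ K.V, refl n0 x.1 = (a x).1) ∧ (∀ x ∈ K.V, refl n1 x.1 = (b x).1) ∧ (∀ x ∈ K.V, refl n2 x.1 = (c x).1)

/-- `K` is the Wythoff polyhedron -/
def T_KWY : Prop := ∀ (K : Geo) (v v1 : H3) (f f' : Set (Set H3)) (a b c : Equiv.Perm H3) (p q : ℕ) (n0 n1 n2 : V4),
  IsGeo K → D01 K v v1 f f' a b c p q → mk n0 n0 = -1 → mk n1 n1 = -1 → mk n2 n2 = -1 →
  (∀ x ∈ K.V, refl n0 x.1 = (a x).1) → (∀ x ∈ K.V, refl n1 x.1 = (b x).1) → (∀ x ∈ K.V, refl n2 x.1 = (c x).1) →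
  K = Wy v (rf n0) (rf n1) (rf n2)

/-- `T_RTR` with signs -/
def T_RTR2 : Prop := ∀ (p n : ℕ) (v : H3) (n0 n1 n2 : V4), 3 ≤ p → RefD p n v n0 n1 n2 →
  ∃ (t t' : V4) (k k' : ℕ), Tri p n0 t t' ∧ 0 ≤ CC p t t' ∧ 0 < k ∧ k < p ∧ 0 < k' ∧ k' < p ∧ Nat.Coprime k p ∧
    Nat.Coprime k' p ∧ k ≠ k' ∧ k + k' ≠ p ∧ ∃ y1 y2 : V4, (y1 = n1 ∨ y1 = -n1) ∧ (y2 = n2 ∨ y2 = -n2) ∧
      mk n0 y1 = Real.cos (k * Real.pi / p) ∧ mk n0 y2 = Real.cos (k' * Real.pi / p) ∧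
      mk y1 y2 = fk p (CC p t t') k k'

/-- THE CLASSIFICATION of the reflection groups -/
def T_CLA2 : Prop := ∀ (p n : ℕ) (v : H3) (n0 n1 n2 : V4), Odd p → 3 ≤ p → RefD p n v n0 n1 n2 →
  ∃ (i : Fin 5) (k0 k1 k2 : V4), VP p i ∧ (k0 = n0 ∨ k0 = -n0) ∧
    (((k1 = n1 ∨ k1 = -n1) ∧ (k2 = n2 ∨ k2 = -n2)) ∨ ((k1 = n2 ∨ k1 = -n2) ∧ (k2 = n1 ∨ k2 = -n1))) ∧
    Cfg (cA p) (cB p i) (cD p i) v k0 k1 k2

/-- the data of the polyhedra with odd faces -/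
def T_NO1 : Prop := ∀ (K : Geo) (p : ℕ), IsGeo K → Two K → FS K = {(p : ℕ∞)} → Odd p →
  3 ≤ p ∧ ∃ v v1 f f' a b c q, D01 K v v1 f f' a b c p q ∧ 3 ≤ q

/-! ## Uniqueness -/

/-- lengths of the edges -/
def ELs (K : Geo) : Set ℝ := {d | ∃ e ∈ K.E, ∃ x ∈ e, ∃ y ∈ e, x ≠ y ∧ d = ch x y}

/-- lengths of the diagonals which span two adjacent edges of a face -/
def DLs (K : Geo) : Set ℝ := {d | ∃ f ∈ K.F, ∃ x y z : H3, x ≠ z ∧ ({y, x} : Set H3) ∈ f ∧ ({y, z} : Set H3) ∈ f ∧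
  d = ch x z}

def T_ELS : Prop := ∀ v r a b, BStr v r a b → ELs (Wy v r a b) = {ch v (r v)}
def T_DLS : Prop := ∀ v r a b, BStr v r a b → DLs (Wy v r a b) = {ch (r v) (a (r v)), ch (r v) (b (r v))}

/-- congruent polyhedra -/
def T_CGI : Prop := ∀ K K' : Geo, Cong K K' → ELs K = ELs K' ∧ DLs K = DLs K' ∧ DG K = DG K'

/-- trigonometry -/
def T_TRG : Prop := ∀ (p : ℕ) (i : Fin 5), Odd p → VP p i → (cA p) ^ 2 ≠ (cB p i) ^ 2 ∧ (cD p i) ^ 2 < 1 ∧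
  ∀ i' : Fin 5, VP p i' → (cB p i) ^ 2 = (cB p i') ^ 2 → dg p i = dg p i' → i = i'

/-- different parameters -/
def T_UNI : Prop := ∀ (p : ℕ) i h i' h', Odd p → Valid p i h → Valid p i' h' → Cong (Mod p i h) (Mod p i' h') →
  i = i' ∧ h = h'

def T_MAINODD : Prop := MainOdd

end Pool.Agent.H39.OD
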